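import Pool.Agent.GEN.StmtsZD

/-!
# Squad GEN, row RHB: stable supersets
-/

set_option autoImplicit false

namespace Pool.Agent.GEN.H78

open PowerSeries Finset Pool.Agent.Helper6_Mono Pool.Agent.Helper30_Simp
  Pool.Agent.Helper30_Simp2

theorem rhb (h1 : DcbStmt) (h2 : RhaStmt) : RhbStmt := by
  classical
  intro σ _ A _ X z c J I D K hB hD hDJ hKD hK
  obtain ⟨-, d2, -, d4, d5⟩ := h1 σ I J
  obtain ⟨E, hE⟩ : ∃ E, E = D \ K := ⟨_, rfl⟩
  have hdis : Disjoint K E := by
    rw [hE]
    exact Finset.disjoint_sdiff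
  have hun : D = K ∪ E := by
    rw [hE]
    exact (Finset.union_sdiff_of_subset hKD).symm
  have hED : E ⊆ D := by
    rw [hE]
    exact Finset.sdiff_subset
  obtain ⟨r1, r2, -⟩ := h2 σ A X z I K E hdis
  have hKJ : Disjoint K J := Finset.disjoint_of_subset_left hKD hDJ
  have hocc : ∀ j ∈ E, ∃ α ∈ I, α j ≠ 0 := by
    intro j hj
    obtain ⟨α, hα, h⟩ := hD.2.2 j (hED hj)
    exact ⟨α, hα, by rw [h]; exact one_ne_zero⟩
  have hsum : rho X z I D - c = ∑ B ∈ E.powerset, (1 - X) ^ B.card * X ^ (E.card - B.card) *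
      (rho X z (keep I E B) K - c) := by
    have h3 : rho X z I D = ∑ B ∈ E.powerset, (1 - X) ^ B.card * X ^ (E.card - B.card) *
      rho X z (keep I E B) K := by
      rw [← r1, hun]
    have h4 : c = ∑ B ∈ E.powerset, (1 - X) ^ B.card * X ^ (E.card - B.card) * c := by
      rw [← Finset.sum_mul, r2, one_mul]
    rw [h3]
    conv_lhs => rw [h4]
    rw [← Finset.sum_sub_distrib]
    refine Finset.sum_congr rfl fun B _ => ?_
    rw [mul_sub]
  rw [hsum, Finset.sum_eq_single E, (d2 E E).2, Nat.sub_self, pow_zero, mul_one, hE]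
  · intro B hB' hne
    have hBE : B ⊆ E := Finset.mem_powerset.1 hB'
    have hlt := d4 E B hocc hBE hne
    have hKS : KS (keep I E B) K := by
      have := d5 D K B hD hKD hK (by rw [← hE]; exact hBE)
      rw [← hE] at this
      exact this
    have h5 := hB (keep I E B) K (d2 E B).1 (fun h => by rw [h] at hlt; exact lt_irrefl _ hlt)
      hKJ hKS
    rw [h5, sub_self, mul_zero]
  · intro h
    exact absurd (Finset.mem_powerset_self E) h

end Pool.Agent.GEN.H78
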