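import Pool.Agent.GEN.StmtsZC

/-!
# Squad GEN, row TRF: transfer to the generating functions
-/

set_option autoImplicit false

namespace Pool.Agent.GEN.H78

open PowerSeries Finset Pool.Agent.Helper6_Mono Pool.Agent.Helper30_Simp
  Pool.Agent.Helper30_Simp.H32 Pool.Agent.Helper30_Simp2 Pool.Agent.Helper30_Simp2.H63

theorem ZX_coe (n : ℕ) (p : Polynomial ℤ) :
    ((ZX n p : Polynomial ℤ) : ℤ⟦X⟧)
      = ∑ e ∈ range (n + 1), ((p.coeff e : ℤ) : ℤ⟦X⟧) * pe X n e := by
  have h : ∀ a : Polynomial ℤ, (a : ℤ⟦X⟧)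
      = (Polynomial.coeToPowerSeries.ringHom : Polynomial ℤ →+* ℤ⟦X⟧) a := fun a => rfl
  rw [h]
  unfold ZX
  rw [map_sum]
  refine Finset.sum_congr rfl fun e _ => ?_
  rw [map_mul, pe_map]
  have h1 : (Polynomial.coeToPowerSeries.ringHom : Polynomial ℤ →+* ℤ⟦X⟧) Polynomial.X = X := by
    simp
  have h2 : (Polynomial.coeToPowerSeries.ringHom : Polynomial ℤ →+* ℤ⟦X⟧)
      (Polynomial.C (p.coeff e)) = ((p.coeff e : ℤ) : ℤ⟦X⟧) := by
    have h3 : (Polynomial.C (p.coeff e) : Polynomial ℤ) = ((p.coeff e : ℤ) : Polynomial ℤ) := by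
      simp
    rw [h3, map_intCast]
  rw [h1, h2]

theorem trf : TrfStmt := by
  intro σ _ M J p
  refine ⟨?_, ?_⟩
  · intro q hq I hI hp l
    have hF := card_free I J
    obtain ⟨n, hn⟩ : ∃ n, n = nJ J := ⟨_, rfl⟩
    obtain ⟨d, hd⟩ : ∃ d, d = dd I J := ⟨_, rfl⟩
    rw [← hn, ← hd] at hF
    rw [← hd] at hp
    rw [← hn, ← hd, ZX_coe, Finset.sum_mul]
    unfold nrm
    rw [Finset.mul_sum, Finset.sum_mul]
    have hsub : range (d + 1) ⊆ range (n + 1) := by
      intro e he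
      rw [Finset.mem_range] at he ⊢
      omega
    have h1 : ∑ e ∈ range (n + 1), ((p.coeff e : ℤ) : ℤ⟦X⟧) * pe X n e * cs X M I J l l
        = ∑ e ∈ range (d + 1), ((p.coeff e : ℤ) : ℤ⟦X⟧) * pe X n e * cs X M I J l l := by
      symm
      refine Finset.sum_subset hsub fun e _ he => ?_
      rw [Finset.mem_range] at he
      rw [Polynomial.coeff_eq_zero_of_natDegree_lt (by omega), Int.cast_zero, zero_mul, zero_mul]
    rw [h1]
    refine Finset.sum_congr rfl fun e he => ?_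
    rw [Finset.mem_range] at he
    rw [mul_assoc, pe_cs hI l (s := d - e) (by omega) hq]
    ring
  · intro R _ L hp
    obtain ⟨n, hn⟩ : ∃ n, n = nJ J := ⟨_, rfl⟩
    rw [← hn] at hp ⊢
    unfold ZX evI
    rw [map_sum, Finset.mul_sum, Polynomial.eval₂_eq_sum_range' (Int.castRingHom R)
      (lt_of_le_of_lt hp (Nat.lt_succ_self n))]
    refine Finset.sum_congr rfl fun e he => ?_
    rw [Finset.mem_range] at he
    rw [map_mul, pe_map, evL_X, ← pe_Li L (show e ≤ n by omega)]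
    have h2 : evL L (Polynomial.C (p.coeff e)) = (Int.castRingHom R) (p.coeff e) := by
      unfold evL
      simp
    rw [h2]
    ring

end Pool.Agent.GEN.H78
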