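import Pool.Agent.GEN.StmtsU

/-!
# Squad GEN, block U, row EXH
-/

set_option autoImplicit false

namespace Pool.Agent.GEN.H78

open MvPolynomial Pool.Agent.GEN

theorem exh (hG : GrbStmt) : ExhStmt := by
  classical
  intro Y A _ _ _ L hL J hJ
  obtain ⟨h, B, hh, hdec, huni, h0⟩ := hG Y A L hL J hJ
  have key : ∀ (K : Type) [Field K] (φ : A →+* K), φ h ≠ 0 → ∀ (W : Type) [AddCommGroup W]
      [Module K W] (g : J →ₛₗ[φ] W) (g₀ : MvPolynomial Y A →ₛₗ[φ] W),
      ∃ g' : MvPolynomial Y A →ₛₗ[φ] W, (∀ j : J, g' (j : MvPolynomial Y A) = g j) ∧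
        ∀ q : MvPolynomial Y A, (∀ m ∈ q.support, m ∈ B) → g' q = g₀ q := by
    intro K _ φ hφ W _ _ g g₀
    choose e j q hj hq hd using hdec
    have hpow : ∀ n : ℕ, φ h ^ n ≠ 0 := fun n => pow_ne_zero n hφ
    -- closure of the polynomials supported in `B`
    have hBs : ∀ (a : A) (p : MvPolynomial Y A), (∀ m ∈ p.support, m ∈ B) →
        ∀ m ∈ (a • p).support, m ∈ B := by
      intro a p hp m hm
      refine hp m ?_
      rw [mem_support_iff] at hm ⊢
      intro h1
      exact hm (by rw [coeff_smul, h1, smul_zero])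
    have hBa : ∀ (p p' : MvPolynomial Y A), (∀ m ∈ p.support, m ∈ B) →
        (∀ m ∈ p'.support, m ∈ B) → ∀ m ∈ (p + p').support, m ∈ B := by
      intro p p' hp hp' m hm
      by_cases h1 : m ∈ p.support
      · exact hp m h1
      · by_cases h2 : m ∈ p'.support
        · exact hp' m h2
        · exfalso
          rw [mem_support_iff, not_not] at h1 h2
          rw [mem_support_iff, coeff_add, h1, h2, add_zero] at hm
          exact hm rfl
    -- independence of the decomposition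
    have hind : ∀ (p : MvPolynomial Y A) (e₁ e₂ : ℕ) (j₁ j₂ : J) (q₁ q₂ : MvPolynomial Y A),
        (∀ m ∈ q₁.support, m ∈ B) → (∀ m ∈ q₂.support, m ∈ B) →
        h ^ e₁ • p = (j₁ : MvPolynomial Y A) + q₁ → h ^ e₂ • p = (j₂ : MvPolynomial Y A) + q₂ →
        (φ h ^ e₁)⁻¹ • (g j₁ + g₀ q₁) = (φ h ^ e₂)⁻¹ • (g j₂ + g₀ q₂) := by
      intro p e₁ e₂ j₁ j₂ q₁ q₂ hq₁ hq₂ h₁ h₂
      have hr : ((h ^ e₂ • j₁ - h ^ e₁ • j₂ : J) : MvPolynomial Y A)
          = h ^ e₁ • q₂ + (-h ^ e₂) • q₁ := by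
        have h3 : h ^ e₂ • ((j₁ : MvPolynomial Y A) + q₁) = h ^ e₁ • ((j₂ : MvPolynomial Y A) + q₂) := by
          rw [← h₁, ← h₂, smul_smul, smul_smul, mul_comm]
        rw [smul_add, smul_add] at h3
        push_cast
        rw [neg_smul]
        linear_combination h3
      have hz : ((h ^ e₂ • j₁ - h ^ e₁ • j₂ : J) : MvPolynomial Y A) = 0 := by
        refine huni _ (h ^ e₂ • j₁ - h ^ e₁ • j₂ : J).2 ?_
        rw [hr]
        exact hBa _ _ (hBs _ _ hq₂) (hBs _ _ hq₁)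
      have hjz : h ^ e₂ • j₁ - h ^ e₁ • j₂ = (0 : J) := Subtype.ext hz
      have hqz : h ^ e₁ • q₂ + (-h ^ e₂) • q₁ = 0 := by rw [← hr]; exact hz
      have hg1 : φ h ^ e₂ • g j₁ = φ h ^ e₁ • g j₂ := by
        have h4 : h ^ e₂ • j₁ = h ^ e₁ • j₂ := sub_eq_zero.1 hjz
        have h5 := congrArg g h4
        rw [LinearMap.map_smulₛₗ, LinearMap.map_smulₛₗ, map_pow, map_pow] at h5
        exact h5
      have hg2 : φ h ^ e₂ • g₀ q₁ = φ h ^ e₁ • g₀ q₂ := by
        have h4 : h ^ e₂ • q₁ = h ^ e₁ • q₂ := by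
          rw [neg_smul] at hqz
          exact (sub_eq_zero.1 (by rw [sub_eq_add_neg]; exact hqz)).symm
        have h5 := congrArg g₀ h4
        rw [LinearMap.map_smulₛₗ, LinearMap.map_smulₛₗ, map_pow, map_pow] at h5
        exact h5
      rw [inv_smul_eq_iff₀ (hpow e₁), smul_comm, eq_inv_smul_iff₀ (hpow e₂), smul_add, smul_add,
        hg1, hg2]
    have hsm : ∀ p, h ^ e p • p = ((⟨j p, hj p⟩ : J) : MvPolynomial Y A) + q p := by
      intro p
      rw [smul_eq_C_mul]
      exact hd p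
    let G : MvPolynomial Y A → W := fun p => (φ h ^ e p)⁻¹ • (g ⟨j p, hj p⟩ + g₀ (q p))
    have hGe : ∀ (p : MvPolynomial Y A) (e₁ : ℕ) (j₁ : J) (q₁ : MvPolynomial Y A),
        (∀ m ∈ q₁.support, m ∈ B) → h ^ e₁ • p = (j₁ : MvPolynomial Y A) + q₁ →
        G p = (φ h ^ e₁)⁻¹ • (g j₁ + g₀ q₁) := by
      intro p e₁ j₁ q₁ hq₁ h₁
      exact hind p (e p) e₁ ⟨j p, hj p⟩ j₁ (q p) q₁ (hq p) hq₁ (hsm p) h₁
    refine ⟨{ toFun := G, map_add' := ?_, map_smul' := ?_ }, ?_, ?_⟩
    · intro p p'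
      have h1 : h ^ (e p + e p') • (p + p')
          = ((h ^ e p' • (⟨j p, hj p⟩ : J) + h ^ e p • (⟨j p', hj p'⟩ : J) : J) : MvPolynomial Y A)
            + (h ^ e p' • q p + h ^ e p • q p') := by
        have e1 : h ^ (e p + e p') • p = h ^ e p' • (h ^ e p • p) := by
          rw [smul_smul, ← pow_add, add_comm]
        have e2 : h ^ (e p + e p') • p' = h ^ e p • (h ^ e p' • p') := by
          rw [smul_smul, ← pow_add]
        rw [smul_add, e1, e2, hsm p, hsm p', smul_add, smul_add]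
        push_cast
        abel
      rw [hGe (p + p') _ _ _ (hBa _ _ (hBs _ _ (hq p)) (hBs _ _ (hq p'))) h1]
      rw [inv_smul_eq_iff₀ (hpow _), map_add, map_add, LinearMap.map_smulₛₗ,
        LinearMap.map_smulₛₗ, LinearMap.map_smulₛₗ, LinearMap.map_smulₛₗ, map_pow, map_pow,
        smul_add]
      have e3 : φ h ^ (e p + e p') • G p
          = φ h ^ e p' • (g ⟨j p, hj p⟩ + g₀ (q p)) := by
        change φ h ^ (e p + e p') • ((φ h ^ e p)⁻¹ • (g ⟨j p, hj p⟩ + g₀ (q p))) = _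
        rw [pow_add, mul_comm, mul_smul, smul_inv_smul₀ (hpow _)]
      have e4 : φ h ^ (e p + e p') • G p'
          = φ h ^ e p • (g ⟨j p', hj p'⟩ + g₀ (q p')) := by
        change φ h ^ (e p + e p') • ((φ h ^ e p')⁻¹ • (g ⟨j p', hj p'⟩ + g₀ (q p'))) = _
        rw [pow_add, mul_smul, smul_inv_smul₀ (hpow _)]
      rw [e3, e4, smul_add, smul_add]
      abel
    · intro a p
      have h1 : h ^ e p • (a • p)
          = ((a • (⟨j p, hj p⟩ : J) : J) : MvPolynomial Y A) + a • q p := by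
        rw [smul_comm, hsm p, smul_add]
        push_cast
        rfl
      rw [hGe (a • p) _ _ _ (hBs _ _ (hq p)) h1, LinearMap.map_smulₛₗ, LinearMap.map_smulₛₗ,
        ← smul_add, smul_comm]
    · intro j₁
      have h1 : h ^ 0 • (j₁ : MvPolynomial Y A) = (j₁ : MvPolynomial Y A) + 0 := by
        rw [pow_zero, one_smul, add_zero]
      have h2 := hGe _ 0 j₁ 0 (by simp) h1
      change G j₁ = g j₁
      rw [h2, pow_zero, inv_one, one_smul, map_zero, add_zero]
    · intro q₁ hq₁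
      have h1 : h ^ 0 • q₁ = ((0 : J) : MvPolynomial Y A) + q₁ := by
        rw [pow_zero, one_smul, ZeroMemClass.coe_zero, zero_add]
      have h2 := hGe _ 0 0 q₁ hq₁ h1
      change G q₁ = g₀ q₁
      rw [h2, pow_zero, inv_one, one_smul, map_zero, zero_add]
  refine ⟨h, hh, ?_, ?_⟩
  · intro K _ φ hφ W _ _ g
    obtain ⟨g', hg', -⟩ := key K φ hφ W g 0
    exact ⟨g', hg'⟩
  · intro hC K _ φ hφ
    have h0B := h0 hC
    obtain ⟨g', hg', hg2⟩ := key K φ hφ K 0
      { toFun := fun p => φ (coeff 0 p)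
        map_add' := fun p p' => by rw [coeff_add, map_add]
        map_smul' := fun a p => by rw [coeff_smul, smul_eq_mul, map_mul, smul_eq_mul] }
    refine ⟨g', fun j hj => ?_, ?_⟩
    · rw [hg' ⟨j, hj⟩]
      rfl
    · rw [hg2 1 ?_]
      · change φ (coeff 0 1) = 1
        rw [coeff_zero_one, map_one]
      · intro m hm
        rw [mem_support_iff, coeff_one] at hm
        have : (0 : Y →₀ ℕ) = m := by
          by_contra h1
          exact hm (if_neg h1)
        rw [← this]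
        exact h0B

end Pool.Agent.GEN.H78
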